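import Pool.Agent.H89.EN.Fin

/-!
# Bohr sets of dimension `O(log³ (1/α))` in `2A - 2A`, and of dimension `O((1 + ℓ/k)² ℓ)` in `kA - kA`

Let `A ⊆ ℤ/N` have density `α ≤ 1/2` and let `ℓ = log (1/α)`.

(1) `2A - 2A` contains a Bohr set with at most `C ℓ³` frequencies and radius at least `c/ℓ`.

(2) For every `k ≥ 2`, `kA - kA` contains a Bohr set with at most `C (1 + ℓ/k)² ℓ` frequencies and radius at least
`c/ℓ`.

(3) For all nonempty `X`, `Y` with `|X + Y| ≤ e^p |Y|`, the set `X + Y - X - Y` contains a Bohr set with at most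
`C (1 + p)² (1 + log (N/|X|))` frequencies and radius at least `1 / (C (1 + p + log (N/|X|)))`.

The constants are absolute. For `2A - 2A` the bound of Sanders (and of the library) is `C ℓ⁴`; an argument of Konyagin,
described by Sanders, replaces the exponent `4` in such results by `3 + o(1)`. For `kA - kA` Chang's theorem gives
`C e^(ℓ/k) ℓ`, which is `O(ℓ)` for `k ≥ ℓ` only.

Proof. The sampling argument of Croot and Sisask is run for a probability measure `μ` and a set `S`, with the growth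
`H(μ * u_S) - H(μ)` of the Shannon entropy in place of the growth of sets: by Gibbs' inequality and Jensen's inequality
there is a sample of `n` points which is good for `exp (-2 n (H(μ * u_S) - H(μ))) / 4` of the translates by elements of
`S`. The moments of the samples have the factor `μ * 1_W` in front, so `W = X + Y` need not be small after the
addition of the support of `μ`. The entropies telescope: if the differences of the elements of `T` are almost periods of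
`μ`, with error `E/2^j`, then one of the measures `μ * u_T * … * u_T` with at most `2^j/4` factors has growth at most
`4 b / 2^j`, where `b = log (N/|X|)`, and sampling from this measure gives a subset `T'` of a translate of `T`, smaller
by a factor `exp (-C q b 2^j / E²)` only, `q = O(1 + p)`, whose differences are almost periods with error
`E / 2^(j + 1)`. The errors are summed with a factor `4/5` per step, and the costs form a geometric series dominated by
the last term, `C q b 2^j`. With `2^j` of order `1 + p` the set `T` has density `exp (-C (1 + p)² (1 + b))`, and the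
sums of `O(1 + p)` elements of `T - T` are almost periods. Chang's theorem for `T` and a de la Vallée Poussin kernel give
the Bohr set. For (2) one takes `X = A` and `Y = jA` with `|(j + 1) A| ≤ e^(ℓ/(k-1)) |jA|`, `1 ≤ j ≤ k - 1`.
-/

set_option autoImplicit false

namespace Pool.Agent.H89.Old.CubeOfTheLogarithm

/-- The Bohr set `B(Γ, ε) = {x ∈ ℤ/N : ‖γ x / N‖ ≤ ε for all γ ∈ Γ}`; the norm is the distance to the nearest
integer. -/
def bohr {N : ℕ} (Γ : Finset (ZMod N)) (ε : ℝ) : Set (ZMod N) :=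
  {x | ∀ γ ∈ Γ, |((γ * x).val : ℝ) / (N : ℝ) - ((round (((γ * x).val : ℝ) / (N : ℝ)) : ℤ) : ℝ)| ≤ ε}

/-- The set `2A - 2A`. -/
def twoAMinusTwoA {N : ℕ} (A : Finset (ZMod N)) : Set (ZMod N) :=
  {x | ∃ a₁ ∈ A, ∃ a₂ ∈ A, ∃ a₃ ∈ A, ∃ a₄ ∈ A, x = a₁ + a₂ - a₃ - a₄}

/-- The set `kA - kA` of the differences of sums of `k` elements of `A`. -/
def kAMinusKA {N : ℕ} (A : Finset (ZMod N)) (k : ℕ) : Set (ZMod N) :=
  {x | ∃ a b : Fin k → ZMod N, (∀ i, a i ∈ A) ∧ (∀ i, b i ∈ A) ∧ x = ∑ i, a i - ∑ i, b i}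

/-- The set `X + Y`. -/
def sumset {N : ℕ} (X Y : Finset (ZMod N)) : Set (ZMod N) := {z | ∃ x ∈ X, ∃ y ∈ Y, z = x + y}

/-- The set `X + Y - X - Y`. -/
def fourfold {N : ℕ} (X Y : Finset (ZMod N)) : Set (ZMod N) :=
  {z | ∃ x₁ ∈ X, ∃ y₁ ∈ Y, ∃ x₂ ∈ X, ∃ y₂ ∈ Y, z = x₁ + y₁ - x₂ - y₂}

open scoped Pointwise in
theorem sumset_eq {N : ℕ} (X Y : Finset (ZMod N)) : sumset X Y = ((X + Y : Finset (ZMod N)) : Set (ZMod N)) := by
  ext z
  rw [Finset.mem_coe, Finset.mem_add]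
  constructor
  · rintro ⟨x, hx, y, hy, rfl⟩
    exact ⟨x, hx, y, hy, rfl⟩
  · rintro ⟨x, hx, y, hy, rfl⟩
    exact ⟨x, hx, y, hy, rfl⟩

open scoped Pointwise in
theorem mem_nsmul' {N : ℕ} (B : Finset (ZMod N)) (m : ℕ) (x : ZMod N) (hx : x ∈ m • B) :
    ∃ b : Fin m → ZMod N, (∀ i, b i ∈ B) ∧ x = ∑ i, b i := by
  induction m generalizing x with
  | zero =>
    rw [zero_nsmul, Finset.mem_zero] at hx
    exact ⟨fun i => i.elim0, fun i => i.elim0, by rw [hx]; simp⟩
  | succ m ih =>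
    rw [succ_nsmul, Finset.mem_add] at hx
    obtain ⟨y, hy, z, hz, rfl⟩ := hx
    obtain ⟨b, hb, rfl⟩ := ih y hy
    refine ⟨Fin.snoc b z, ?_, ?_⟩
    · intro i
      refine Fin.lastCases ?_ (fun i => ?_) i
      · rw [Fin.snoc_last]; exact hz
      · rw [Fin.snoc_castSucc]; exact hb i
    · rw [Fin.sum_univ_castSucc, Fin.snoc_last]
      simp only [Fin.snoc_castSucc]

open scoped Pointwise in
theorem pair {N : ℕ} (hN : 0 < N) (X Y : Finset (ZMod N)) (hX : X.Nonempty) (hY : Y.Nonempty) (p : ℝ) (hp : 0 ≤ p)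
    (h : ((X + Y).card : ℝ) ≤ Real.exp p * Y.card) :
    ∃ Γ : Finset (ZMod N),
      (Γ.card : ℝ) ≤ 2 * 10 ^ 9 * ((1 + p) ^ 2 * (1 + Real.log ((N : ℝ) / X.card))) ∧
      ∀ x ∈ bohr Γ (1 / (10 ^ 4 * (1 + p + Real.log ((N : ℝ) / X.card)))), ∃ w₁ ∈ X + Y, ∃ w₂ ∈ X + Y, x = w₁ - w₂ := by
  classical
  have : NeZero N := ⟨hN.ne'⟩
  have hNpos : (0 : ℝ) < N := by exact_mod_cast hN
  have hXpos : (0 : ℝ) < X.card := by exact_mod_cast hX.card_pos
  have hb : 0 ≤ Real.log ((N : ℝ) / X.card) := by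
    apply Real.log_nonneg
    rw [le_div_iff₀ hXpos, one_mul]
    have := Finset.card_le_univ X
    rw [ZMod.card] at this
    exact_mod_cast this
  have hall : ∀ Z : Finset (ZMod N), Z.Nonempty → Real.log Z.card ≤ Real.log X.card + Real.log ((N : ℝ) / X.card) := by
    intro Z hZ
    rw [← Real.log_mul hXpos.ne' (by positivity), mul_div_cancel₀ _ hXpos.ne']
    apply Real.log_le_log (by exact_mod_cast hZ.card_pos)
    have := Finset.card_le_univ Z
    rw [ZMod.card] at this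
    exact_mod_cast this
  have e0 : X - (-Y) = X + Y := by rw [sub_neg_eq_add]
  have hXY : (X - (-Y)).Nonempty := by rw [e0]; exact hX.add hY
  obtain ⟨Γ, h1, h2⟩ := Pool.Agent.H89.EN.main_ZN X (-Y) Finset.univ hX hY.neg Finset.univ_nonempty p
    (Real.log ((N : ℝ) / X.card)) hp hb (by rw [e0, Finset.card_neg]; exact h)
    (hall _ (hX.add Finset.univ_nonempty)) (fun j _ => hall _ (hX.add ((hXY.sub hXY).nsmul)))
  have e1 : Real.log ((N : ℝ) / ((Finset.univ : Finset (ZMod N)).card : ℝ)) = 0 := by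
    rw [Finset.card_univ, ZMod.card, div_self hNpos.ne', Real.log_one]
  rw [e1] at h1 h2
  rw [zero_add] at h1
  rw [add_zero, e0] at h2
  exact ⟨Γ, h1, fun x hx => h2 x hx⟩

open scoped Pointwise in
/-- **Bohr sets in `2A - 2A` and `kA - kA`.** -/
theorem result :
    -- (1) `2A - 2A`
    (∃ C c : ℝ, 0 < C ∧ 0 < c ∧
      ∀ N : ℕ, 0 < N → ∀ A : Finset (ZMod N), A.Nonempty → (A.card : ℝ) / (N : ℝ) ≤ 1 / 2 →
        ∃ (Γ : Finset (ZMod N)) (ε : ℝ), 0 < ε ∧
          (Γ.card : ℝ) ≤ C * Real.log ((N : ℝ) / (A.card : ℝ)) ^ 3 ∧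
          c / Real.log ((N : ℝ) / (A.card : ℝ)) ≤ ε ∧
          bohr Γ ε ⊆ twoAMinusTwoA A) ∧
    -- (2) `kA - kA`
    (∃ C c : ℝ, 0 < C ∧ 0 < c ∧
      ∀ N : ℕ, 0 < N → ∀ A : Finset (ZMod N), A.Nonempty → (A.card : ℝ) / (N : ℝ) ≤ 1 / 2 → ∀ k : ℕ, 2 ≤ k →
        ∃ (Γ : Finset (ZMod N)) (ε : ℝ), 0 < ε ∧
          (Γ.card : ℝ) ≤ C * (1 + Real.log ((N : ℝ) / (A.card : ℝ)) / k) ^ 2 * Real.log ((N : ℝ) / (A.card : ℝ)) ∧
          c / Real.log ((N : ℝ) / (A.card : ℝ)) ≤ ε ∧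
          bohr Γ ε ⊆ kAMinusKA A k) ∧
    -- (3) two sets
    (∃ C : ℝ, 0 < C ∧
      ∀ N : ℕ, 0 < N → ∀ X Y : Finset (ZMod N), X.Nonempty → Y.Nonempty → ∀ p : ℝ, 0 ≤ p →
        ((sumset X Y).ncard : ℝ) ≤ Real.exp p * Y.card →
        ∃ Γ : Finset (ZMod N),
          (Γ.card : ℝ) ≤ C * (1 + p) ^ 2 * (1 + Real.log ((N : ℝ) / (X.card : ℝ))) ∧
          bohr Γ (1 / (C * (1 + p + Real.log ((N : ℝ) / (X.card : ℝ))))) ⊆ fourfold X Y) := by
  classical
  have log_ge : ∀ (N : ℕ), 0 < N → ∀ A : Finset (ZMod N), A.Nonempty → (A.card : ℝ) / (N : ℝ) ≤ 1 / 2 →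
      0.69 ≤ Real.log ((N : ℝ) / (A.card : ℝ)) := by
    intro N hN A hA hα
    have hNpos : (0 : ℝ) < N := by exact_mod_cast hN
    have hApos : (0 : ℝ) < A.card := by exact_mod_cast hA.card_pos
    have h1 : (2 : ℝ) ≤ (N : ℝ) / A.card := by
      rw [div_le_iff₀ hNpos] at hα
      rw [le_div_iff₀ hApos]
      linarith
    have h2 := Real.log_le_log (by norm_num) h1
    linarith [Real.log_two_gt_d9]
  have part2 : ∀ N : ℕ, 0 < N → ∀ A : Finset (ZMod N), A.Nonempty → (A.card : ℝ) / (N : ℝ) ≤ 1 / 2 → ∀ k : ℕ, 2 ≤ k →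
      ∃ (Γ : Finset (ZMod N)) (ε : ℝ), 0 < ε ∧
        (Γ.card : ℝ) ≤ 2 * 10 ^ 10 * (1 + Real.log ((N : ℝ) / (A.card : ℝ)) / k) ^ 2 *
          Real.log ((N : ℝ) / (A.card : ℝ)) ∧
        (1 / (4 * 10 ^ 4)) / Real.log ((N : ℝ) / (A.card : ℝ)) ≤ ε ∧
        bohr Γ ε ⊆ kAMinusKA A k := by
    intro N hN A hA hα k hk
    have : NeZero N := ⟨hN.ne'⟩
    have hNpos : (0 : ℝ) < N := by exact_mod_cast hN
    have hApos : (0 : ℝ) < A.card := by exact_mod_cast hA.card_pos
    obtain ⟨l, hl⟩ : ∃ l : ℝ, l = Real.log ((N : ℝ) / (A.card : ℝ)) := ⟨_, rfl⟩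
    have hl1 : 0.69 ≤ l := by rw [hl]; exact log_ge N hN A hA hα
    rw [← hl]
    have hk2 : (2 : ℝ) ≤ k := by exact_mod_cast hk
    -- the choice of `j`
    obtain ⟨j, hj1, hjk, hj⟩ : ∃ j : ℕ, 1 ≤ j ∧ j + 1 ≤ k ∧
        Real.log ((j + 1) • A).card - Real.log (j • A).card ≤ l / (k - 1) := by
      by_contra hcon
      push Not at hcon
      have h1 : ∀ i : ℕ, i + 1 ≤ k → i * (l / (k - 1)) ≤ Real.log ((i + 1) • A).card - Real.log A.card := by
        intro i
        induction i with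
        | zero =>
          intro _
          simp
        | succ i ih =>
          intro hi
          have h2 := ih (by omega)
          have h3 := hcon (i + 1) (by omega) hi
          push_cast
          linarith
      obtain ⟨m, rfl⟩ : ∃ m, k = m + 2 := ⟨k - 2, by omega⟩
      have h2 := h1 m (by omega)
      have h3 := hcon (m + 1) (by omega) (by omega)
      have h4 : Real.log ((m + 1 + 1) • A).card ≤ Real.log N := by
        apply Real.log_le_log (by exact_mod_cast (hA.nsmul).card_pos)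
        have := Finset.card_le_univ ((m + 1 + 1) • A)
        rw [ZMod.card] at this
        exact_mod_cast this
      rw [Real.log_div hNpos.ne' hApos.ne'] at hl
      have h5 : (m : ℝ) * (l / (((m + 2 : ℕ) : ℝ) - 1)) + l / (((m + 2 : ℕ) : ℝ) - 1) = l := by
        push_cast
        have : (m : ℝ) + 2 - 1 ≠ 0 := by
          have : (0 : ℝ) ≤ m := Nat.cast_nonneg m
          linarith
        field_simp
        ring
      linarith
    obtain ⟨p, hp⟩ : ∃ p : ℝ, p = l / (k - 1) := ⟨_, rfl⟩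
    rw [← hp] at hj
    have hp0 : 0 ≤ p := by
      rw [hp]
      apply div_nonneg <;> linarith
    have hjApos : (0 : ℝ) < (j • A).card := by exact_mod_cast (hA.nsmul).card_pos
    have hjApos' : (0 : ℝ) < ((j + 1) • A).card := by exact_mod_cast (hA.nsmul).card_pos
    have hgrow : ((A + j • A).card : ℝ) ≤ Real.exp p * (j • A).card := by
      have e : A + j • A = (j + 1) • A := by rw [succ_nsmul, add_comm]
      rw [e, ← Real.log_le_log_iff hjApos' (by positivity), Real.log_mul (Real.exp_pos _).ne' hjApos.ne', Real.log_exp]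
      linarith
    obtain ⟨Γ, h1, h2⟩ := pair hN A (j • A) hA hA.nsmul p hp0 hgrow
    rw [← hl] at h1 h2
    refine ⟨Γ, 1 / (10 ^ 4 * (1 + p + l)), ?_, ?_, ?_, fun x hx => ?_⟩
    rotate_left 3
    · obtain ⟨w₁, hw₁, w₂, hw₂, rfl⟩ := h2 x hx
      have e : A + j • A = (j + 1) • A := by rw [succ_nsmul, add_comm]
      rw [e] at hw₁ hw₂
      obtain ⟨a₀, ha₀⟩ := hA
      obtain ⟨i, hi⟩ : ∃ i, k = (j + 1) + i := ⟨k - (j + 1), by omega⟩
      have hi₀ : i • a₀ ∈ i • A := Finset.nsmul_mem_nsmul ha₀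
      obtain ⟨u, hu, hu'⟩ := mem_nsmul' A k (w₁ + i • a₀) (by rw [hi, add_nsmul]; exact Finset.add_mem_add hw₁ hi₀)
      obtain ⟨v, hv, hv'⟩ := mem_nsmul' A k (w₂ + i • a₀) (by rw [hi, add_nsmul]; exact Finset.add_mem_add hw₂ hi₀)
      refine ⟨u, v, hu, hv, ?_⟩
      rw [← hu', ← hv']
      abel
    · positivity
    · refine h1.trans ?_
      have h3 : p ≤ 2 * (l / k) := by
        rw [hp, mul_div_assoc', div_le_div_iff₀ (by linarith) (by linarith)]
        nlinarith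
      have h4 : (1 + p) ^ 2 ≤ 4 * (1 + l / k) ^ 2 := by
        have h5 : 1 + p ≤ 2 * (1 + l / k) := by linarith
        calc (1 + p) ^ 2 ≤ (2 * (1 + l / k)) ^ 2 := by gcongr
          _ = _ := by ring
      have h6 : 1 + l ≤ 2.5 * l := by linarith
      calc 2 * 10 ^ 9 * ((1 + p) ^ 2 * (1 + l)) ≤ 2 * 10 ^ 9 * ((4 * (1 + l / k) ^ 2) * (2.5 * l)) := by gcongr
        _ = _ := by ring
    · rw [div_div]
      apply one_div_le_one_div_of_le (by positivity)
      have h3 : p ≤ l := by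
        rw [hp]
        apply div_le_self (by linarith)
        linarith
      nlinarith
  refine ⟨?_, ⟨2 * 10 ^ 10, 1 / (4 * 10 ^ 4), by norm_num, by norm_num, part2⟩, ?_⟩
  · refine ⟨10 ^ 11, 1 / (4 * 10 ^ 4), by norm_num, by norm_num, ?_⟩
    intro N hN A hA hα
    obtain ⟨Γ, ε, h1, h2, h3, h4⟩ := part2 N hN A hA hα 2 le_rfl
    refine ⟨Γ, ε, h1, ?_, h3, ?_⟩
    · refine h2.trans ?_
      have hl1 := log_ge N hN A hA hα
      obtain ⟨l, hl⟩ : ∃ l : ℝ, l = Real.log ((N : ℝ) / (A.card : ℝ)) := ⟨_, rfl⟩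
      rw [← hl] at hl1 ⊢
      push_cast
      have h5 : 1 + l / 2 ≤ 2 * l := by linarith
      calc 2 * 10 ^ 10 * (1 + l / 2) ^ 2 * l ≤ 2 * 10 ^ 10 * (2 * l) ^ 2 * l := by gcongr
        _ = 8 * 10 ^ 10 * l ^ 3 := by ring
        _ ≤ _ := by gcongr; norm_num
    · intro x hx
      obtain ⟨a, b, ha, hb, rfl⟩ := h4 hx
      refine ⟨a 0, ha 0, a 1, ha 1, b 0, hb 0, b 1, hb 1, ?_⟩
      rw [Fin.sum_univ_two, Fin.sum_univ_two]
      abel
  · refine ⟨2 * 10 ^ 9, by norm_num, ?_⟩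
    intro N hN X Y hX hY p hp h
    have : NeZero N := ⟨hN.ne'⟩
    rw [sumset_eq, Set.ncard_coe_finset] at h
    obtain ⟨Γ, h1, h2⟩ := pair hN X Y hX hY p hp h
    refine ⟨Γ, by rw [mul_assoc]; exact h1, ?_⟩
    have hlog : 0 ≤ Real.log ((N : ℝ) / X.card) := by
      apply Real.log_nonneg
      have hXpos : (0 : ℝ) < X.card := by exact_mod_cast hX.card_pos
      rw [le_div_iff₀ hXpos, one_mul]
      have := Finset.card_le_univ X
      rw [ZMod.card] at this
      exact_mod_cast this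
    intro x hx
    obtain ⟨w₁, hw₁, w₂, hw₂, rfl⟩ := h2 x (by
      intro γ hγ
      refine (hx γ hγ).trans ?_
      apply one_div_le_one_div_of_le (by positivity)
      gcongr
      norm_num)
    rw [Finset.mem_add] at hw₁ hw₂
    obtain ⟨x₁, hx₁, y₁, hy₁, rfl⟩ := hw₁
    obtain ⟨x₂, hx₂, y₂, hy₂, rfl⟩ := hw₂
    exact ⟨x₁, hx₁, y₁, hy₁, x₂, hx₂, y₂, hy₂, by abel⟩

end Pool.Agent.H89.Old.CubeOfTheLogarithm
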